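import Mathlib
import Pool.Agent.H68R2.BP.Props2
import Pool.Agent.H241R2.KZ.LHalf
import Pool.Agent.H325R2.KZ.Cc
import Pool.Agent.H398R2.KZ.NComm

/-!
Task G_mu: matrix units in algebras without abelian projections.
-/

open scoped ComplexOrder InnerProductSpace ComplexConjugate Topology
open Finset Filter

noncomputable section

namespace H68R2.BP

open H759R2.Kad H744R2.KZ

namespace GmuAux

open NCommAux398

variable {H : Type} [NormedAddCommGroup H] [InnerProductSpace ℂ H] [CompleteSpace H]

/-- the `2 × 2` matrix units of a halving -/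
def f2 (v : H →L[ℂ] H) : Bool → Bool → (H →L[ℂ] H)
  | false, false => v * star v
  | false, true => v
  | true, false => star v
  | true, true => star v * v

theorem f2_mul {z v : H →L[ℂ] H} (h : Hv z v) (a b c d : Bool) :
    f2 v a b * f2 v c d = if b = c then f2 v a d else 0 := by
  have h1 := h.vv
  have h2 := h.ss
  have h3 := h.vsv
  have h4 := h.svs
  have h5 := h.vvw
  have h6 := h.ssw
  have h7 := h.vsvw
  have h8 := h.svsw
  cases a <;> cases b <;> cases c <;> cases d <;>
    simp [f2, mul_assoc, h1, h2, h3, h4, h5, h6, h7, h8]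

theorem f2_star (v : H →L[ℂ] H) (a b : Bool) : star (f2 v a b) = f2 v b a := by
  cases a <;> cases b <;> simp [f2, star_mul]

theorem f2_sum {z v : H →L[ℂ] H} (h : Hv z v) : ∑ a, f2 v a a = z := by
  rw [Fintype.sum_bool]
  exact h.sum

theorem gen (k : ℕ) : ∀ (M : VonNeumannAlgebra H) (z : H →L[ℂ] H), IsCP M z → NA M z →
    ∃ (ι : Type) (_ : Fintype ι) (_ : DecidableEq ι) (e : ι → ι → (H →L[ℂ] H)),
      Fintype.card ι = 2 ^ k ∧ (∀ i j, e i j ∈ M) ∧
      (∀ i j l m, e i j * e l m = if j = l then e i m else 0) ∧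
      (∀ i j, star (e i j) = e j i) ∧ ∑ i, e i i = z := by
  induction k with
  | zero =>
    intro M z hz _
    refine ⟨Fin 1, inferInstance, inferInstance, fun _ _ => z, by simp, fun _ _ => hz.2.1,
      ?_, fun _ _ => hz.1.1, by simp⟩
    intro i j l m
    rw [if_pos (Subsingleton.elim _ _), hz.1.2]
  | succ k ih =>
    intro M z hz hNA
    obtain ⟨v, hv, h0, h1⟩ := prove_L_half prove_L_cc H M z hz hNA
    have hzv : z * v = v * z := hz.2.2 v hv
    have h : Hv z v := Hv.mk' hz.1 hzv h0 h1
    obtain ⟨N, hN, hzN, hNAN, -⟩ := prove_N_comm prove_L_cc H M z v hz hNA hv h0 h1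
    obtain ⟨ι, _, _, e, hcard, hmem, hmul, hstar, hsum⟩ := ih N z hzN hNAN
    have hf : ∀ a b, f2 v a b ∈ M := by
      intro a b
      have hs : star v ∈ M := star_mem hv
      cases a <;> cases b <;> simp only [f2]
      · exact mul_mem hv hs
      · exact hv
      · exact hs
      · exact mul_mem hs hv
    have hcomm : ∀ i j a b, e i j * f2 v a b = f2 v a b * e i j := by
      intro i j a b
      obtain ⟨-, c1, c2⟩ := (hN (e i j)).1 (hmem i j)
      cases a <;> cases b <;> simp only [f2]
      · rw [← mul_assoc, c1, mul_assoc, c2, mul_assoc]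
      · exact c1
      · exact c2
      · rw [← mul_assoc, c2, mul_assoc, c1, mul_assoc]
    refine ⟨Bool × ι, inferInstance, inferInstance, fun x y => f2 v x.1 y.1 * e x.2 y.2, ?_, ?_,
      ?_, ?_, ?_⟩
    · rw [Fintype.card_prod, Fintype.card_bool, hcard, pow_succ']
    · intro x y
      exact mul_mem (hf _ _) ((hN _).1 (hmem _ _)).1
    · rintro ⟨a, i⟩ ⟨b, j⟩ ⟨c, l⟩ ⟨d, m⟩
      simp only [Prod.mk.injEq]
      have e1 : f2 v a b * e i j * (f2 v c d * e l m) =
          (f2 v a b * f2 v c d) * (e i j * e l m) := by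
        rw [mul_assoc, ← mul_assoc (e i j), hcomm i j c d]
        simp only [mul_assoc]
      rw [e1, f2_mul h, hmul]
      by_cases hb : b = c
      · by_cases hj : j = l
        · simp [hb, hj]
        · simp [hj]
      · simp [hb]
    · rintro ⟨a, i⟩ ⟨b, j⟩
      simp only [star_mul, f2_star, hstar]
      exact hcomm j i b a
    · rw [Fintype.sum_prod_type]
      simp only [← Finset.mul_sum, hsum, ← Finset.sum_mul]
      rw [f2_sum h, hz.1.2]

end GmuAux

theorem prove_G_mu : G_mu := by
  intro H _ _ _ M z hz hNA k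
  obtain ⟨ι, _, _, e, hcard, hmem, hmul, hstar, hsum⟩ := GmuAux.gen k M z hz hNA
  let φ : Fin (2 ^ k) ≃ ι := (Fintype.equivFinOfCardEq hcard).symm
  refine ⟨fun i j => e (φ i) (φ j), fun i j => hmem _ _, ⟨?_, ?_⟩, ?_⟩
  · intro i j l m
    rw [hmul]
    simp only [φ.injective.eq_iff]
  · intro i j
    exact hstar _ _
  · rw [Equiv.sum_comp φ (fun x => e x x)]
    exact hsum

end H68R2.BP
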