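import Mathlib
import Pool.Agent.H68R2.BP.Props2

/-!
Task S_y: amplification by matrix units: norms.
-/

open scoped ComplexOrder InnerProductSpace ComplexConjugate Topology
open Finset Filter

noncomputable section

namespace H68R2.BP

open H759R2.Kad H744R2.KZ

namespace SyAux

variable {H : Type} [NormedAddCommGroup H] [InnerProductSpace ℂ H] [CompleteSpace H]

theorem norm_pr {p : H →L[ℂ] H} (h1 : star p = p) (h2 : p * p = p) : ‖p‖ ≤ 1 := by
  have h : ‖p‖ * ‖p‖ = ‖p‖ := by
    have := CStarRing.norm_star_mul_self (x := p)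
    rw [h1, h2] at this
    exact this.symm
  by_contra hc
  push Not at hc
  nlinarith

theorem norm_mu {n : ℕ} {e : Fin n → Fin n → (H →L[ℂ] H)} (he : MU e) (i j : Fin n) :
    ‖e i j‖ ≤ 1 := by
  have h1 : star (e i j) * e i j = e j j := by rw [he.adj, he.mul, if_pos rfl]
  have h2 : ‖e j j‖ ≤ 1 := norm_pr (he.adj _ _) (by rw [he.mul, if_pos rfl])
  have h3 := CStarRing.norm_star_mul_self (x := e i j)
  rw [h1] at h3
  nlinarith [norm_nonneg (e i j)]

theorem term_col (s : ℂ) (hs : star s = s) (a x b : H →L[ℂ] H) :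
    star (s • (a * x * b)) * (s • (a * x * b)) =
      (s * s) • (star b * (star x * (star a * a) * x) * b) := by
  rw [star_smul, smul_mul_smul_comm, hs]
  simp only [star_mul, mul_assoc]

theorem term_row (s : ℂ) (hs : star s = s) (a x b : H →L[ℂ] H) :
    (s • (a * x * b)) * star (s • (a * x * b)) =
      (s * s) • (a * (x * (b * star b) * star x) * star a) := by
  rw [star_smul, smul_mul_smul_comm, hs]
  simp only [star_mul, mul_assoc]

theorem col_eq {n : ℕ} {e : Fin n → Fin n → (H →L[ℂ] H)} (he : MU e) {z : H →L[ℂ] H}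
    (hz : ∑ i, e i i = z) (i₀ : Fin n) {ι : Type} [Fintype ι] (x : ι → (H →L[ℂ] H))
    (hx : ∀ i, z * x i = x i) (s : ℂ) (hs : star s = s) :
    ∑ t : ι × Fin n × Fin n, star (s • (e i₀ t.2.1 * x t.1 * e t.2.2 i₀)) *
        (s • (e i₀ t.2.1 * x t.1 * e t.2.2 i₀)) =
      (s * s) • ∑ k, e i₀ k * (∑ i, star (x i) * x i) * e k i₀ := by
  calc ∑ t : ι × Fin n × Fin n, star (s • (e i₀ t.2.1 * x t.1 * e t.2.2 i₀)) *
        (s • (e i₀ t.2.1 * x t.1 * e t.2.2 i₀))
      = ∑ i, ∑ j, ∑ k, (s * s) • (e i₀ k * (star (x i) * e j j * x i) * e k i₀) := by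
        rw [Fintype.sum_prod_type]
        refine sum_congr rfl fun i _ => ?_
        rw [Fintype.sum_prod_type]
        refine sum_congr rfl fun j _ => sum_congr rfl fun k _ => ?_
        rw [term_col s hs, he.adj, he.adj, he.mul, if_pos rfl]
    _ = ∑ i, ∑ k, ∑ j, (s * s) • (e i₀ k * (star (x i) * e j j * x i) * e k i₀) :=
        sum_congr rfl fun i _ => Finset.sum_comm
    _ = ∑ i, ∑ k, (s * s) • (e i₀ k * (star (x i) * x i) * e k i₀) := by
        refine sum_congr rfl fun i _ => sum_congr rfl fun k _ => ?_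
        rw [← Finset.smul_sum, ← Finset.sum_mul, ← Finset.mul_sum, ← Finset.sum_mul,
          ← Finset.mul_sum, hz, mul_assoc (star (x i)), hx]
    _ = ∑ k, ∑ i, (s * s) • (e i₀ k * (star (x i) * x i) * e k i₀) := Finset.sum_comm
    _ = (s * s) • ∑ k, e i₀ k * (∑ i, star (x i) * x i) * e k i₀ := by
        rw [Finset.smul_sum]
        refine sum_congr rfl fun k _ => ?_
        rw [Finset.mul_sum, Finset.sum_mul, Finset.smul_sum]

theorem row_eq {n : ℕ} {e : Fin n → Fin n → (H →L[ℂ] H)} (he : MU e) {z : H →L[ℂ] H}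
    (hz : ∑ i, e i i = z) (i₀ : Fin n) {ι : Type} [Fintype ι] (x : ι → (H →L[ℂ] H))
    (hx : ∀ i, x i * z = x i) (s : ℂ) (hs : star s = s) :
    ∑ t : ι × Fin n × Fin n, (s • (e i₀ t.2.1 * x t.1 * e t.2.2 i₀)) *
        star (s • (e i₀ t.2.1 * x t.1 * e t.2.2 i₀)) =
      (s * s) • ∑ k, e i₀ k * (∑ i, x i * star (x i)) * e k i₀ := by
  calc ∑ t : ι × Fin n × Fin n, (s • (e i₀ t.2.1 * x t.1 * e t.2.2 i₀)) *
        star (s • (e i₀ t.2.1 * x t.1 * e t.2.2 i₀))
      = ∑ i, ∑ j, ∑ k, (s * s) • (e i₀ j * (x i * e k k * star (x i)) * e j i₀) := by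
        rw [Fintype.sum_prod_type]
        refine sum_congr rfl fun i _ => ?_
        rw [Fintype.sum_prod_type]
        refine sum_congr rfl fun j _ => sum_congr rfl fun k _ => ?_
        rw [term_row s hs, he.adj, he.adj, he.mul, if_pos rfl]
    _ = ∑ i, ∑ j, (s * s) • (e i₀ j * (x i * star (x i)) * e j i₀) := by
        refine sum_congr rfl fun i _ => sum_congr rfl fun k _ => ?_
        rw [← Finset.smul_sum, ← Finset.sum_mul, ← Finset.mul_sum, ← Finset.sum_mul,
          ← Finset.mul_sum, hz, hx]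
    _ = ∑ k, ∑ i, (s * s) • (e i₀ k * (x i * star (x i)) * e k i₀) := Finset.sum_comm
    _ = (s * s) • ∑ k, e i₀ k * (∑ i, x i * star (x i)) * e k i₀ := by
        rw [Finset.smul_sum]
        refine sum_congr rfl fun k _ => ?_
        rw [Finset.mul_sum, Finset.sum_mul, Finset.smul_sum]

theorem avg_norm {n : ℕ} {e : Fin n → Fin n → (H →L[ℂ] H)} (he : MU e) (i₀ : Fin n)
    (X : H →L[ℂ] H) (s : ℂ) (hs : ‖s * s‖ * n = 1) :
    ‖(s * s) • ∑ k, e i₀ k * X * e k i₀‖ ≤ ‖X‖ := by
  have h1 : ‖∑ k, e i₀ k * X * e k i₀‖ ≤ n * ‖X‖ := by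
    refine (norm_sum_le _ _).trans ?_
    have h2 : ∀ k ∈ (Finset.univ : Finset (Fin n)), ‖e i₀ k * X * e k i₀‖ ≤ ‖X‖ := by
      intro k _
      calc ‖e i₀ k * X * e k i₀‖ ≤ ‖e i₀ k‖ * ‖X‖ * ‖e k i₀‖ :=
            (norm_mul_le _ _).trans (mul_le_mul_of_nonneg_right (norm_mul_le _ _) (norm_nonneg _))
        _ ≤ 1 * ‖X‖ * 1 := by
            have a1 := norm_mu he i₀ k
            have a2 := norm_mu he k i₀
            gcongr
        _ = ‖X‖ := by ring
    refine (Finset.sum_le_sum h2).trans ?_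
    rw [Finset.sum_const, Finset.card_univ, Fintype.card_fin, nsmul_eq_mul]
  rw [norm_smul]
  calc ‖s * s‖ * ‖∑ k, e i₀ k * X * e k i₀‖ ≤ ‖s * s‖ * (n * ‖X‖) :=
        mul_le_mul_of_nonneg_left h1 (norm_nonneg _)
    _ = ‖s * s‖ * n * ‖X‖ := by ring
    _ = ‖X‖ := by rw [hs, one_mul]

end SyAux

open SyAux in
theorem prove_S_y : S_y := by
  intro H _ _ _ S κ _ _ _ b l r th hm z hz n e he hez i₀ ι _ x hx
  set s : ℂ := (((√(n : ℝ))⁻¹ : ℝ) : ℂ) with hs
  intro y
  have hn : (0 : ℝ) < n := by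
    have : 0 < n := Fin.pos i₀
    exact_mod_cast this
  have hss : s * s = (((n : ℝ)⁻¹ : ℝ) : ℂ) := by
    rw [hs, ← Complex.ofReal_mul, ← mul_inv, Real.mul_self_sqrt hn.le]
  have hstar : star s = s := by
    rw [hs]; exact Complex.conj_ofReal _
  have hconj : conj s = s := hstar
  have hsn : ‖s * s‖ * n = 1 := by
    rw [hss, Complex.norm_real, Real.norm_eq_abs, abs_of_pos (inv_pos.mpr hn)]
    exact inv_mul_cancel₀ hn.ne'
  refine ⟨?_, ?_, ?_, ?_⟩
  · unfold colN
    rw [col_eq he hez i₀ x (fun i => (hx i).1) s hstar]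
    exact avg_norm he i₀ _ s hsn
  · unfold rowN
    rw [row_eq he hez i₀ x (fun i => (hx i).2) s hstar]
    exact avg_norm he i₀ _ s hsn
  · -- the operators `W`
    have l0 : l 0 = 0 := by
      have := hm.l_smul 0 0
      rwa [zero_smul, zero_smul] at this
    have r0 : r 0 = 0 := by
      have := hm.r_smul 0 0
      rwa [zero_smul, map_zero, zero_smul] at this
    set A : Fin n → (S →L[ℂ] S) := fun j => l (e i₀ j) * r (e i₀ j) with hA
    set B : Fin n → (S →L[ℂ] S) := fun k => l (e k i₀) * r (e k i₀) with hB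
    have hstarB : ∀ k, star (B k) = A k := by
      intro k
      simp only [hA, hB]
      rw [star_mul, ← hm.l_star, ← hm.r_star, he.adj, hm.comm]
    have hAB : ∀ j k, A j * B k = if j = k then l (e i₀ i₀) * r (e i₀ i₀) else 0 := by
      intro j k
      simp only [hA, hB]
      have e1 : l (e i₀ j) * r (e i₀ j) * (l (e k i₀) * r (e k i₀)) =
          (l (e i₀ j) * l (e k i₀)) * (r (e i₀ j) * r (e k i₀)) := by
        rw [mul_assoc, ← mul_assoc (r (e i₀ j)), ← hm.comm (e k i₀) (e i₀ j)]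
        simp only [mul_assoc]
      rw [e1, ← hm.l_mul, ← hm.r_mul, he.mul]
      split_ifs
      · rfl
      · rw [l0, r0, zero_mul]
    set Wd : S →L[ℂ] S := s • ∑ k, B k with hW
    have hWs : star Wd = s • ∑ j, A j := by
      rw [hW, star_smul, hstar, star_sum]
      simp only [hstarB]
    have hWW : star Wd * Wd = l (e i₀ i₀) * r (e i₀ i₀) := by
      rw [hWs, hW, smul_mul_smul_comm, Finset.sum_mul]
      simp only [Finset.mul_sum, hAB, Finset.sum_ite_eq, Finset.mem_univ, if_true]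
      rw [Finset.sum_const, Finset.card_univ, Fintype.card_fin, hss, ← Nat.cast_smul_eq_nsmul ℂ,
        smul_smul]
      have : (((n : ℝ)⁻¹ : ℝ) : ℂ) * (n : ℂ) = 1 := by
        push_cast
        exact inv_mul_cancel₀ (by exact_mod_cast hn.ne')
      rw [this, one_smul]
    have hWn : ‖Wd‖ ≤ 1 := by
      have h1 := CStarRing.norm_star_mul_self (x := Wd)
      rw [hWW] at h1
      have h2 : ‖l (e i₀ i₀) * r (e i₀ i₀)‖ ≤ 1 := by
        refine (norm_mul_le _ _).trans ?_
        have a1 := (hm.l_norm (e i₀ i₀)).trans (norm_mu he i₀ i₀)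
        have a2 := (hm.r_norm (e i₀ i₀)).trans (norm_mu he i₀ i₀)
        calc ‖l (e i₀ i₀)‖ * ‖r (e i₀ i₀)‖ ≤ 1 * 1 := by gcongr
          _ = 1 := one_mul _
      nlinarith [norm_nonneg Wd]
    have hTT : TT l r y = star Wd * TT l r x * Wd := by
      have e1 : ∀ t : ι × Fin n × Fin n, l (y t) * r (y t) =
          (s * s) • (A t.2.1 * (l (x t.1) * r (x t.1)) * B t.2.2) := by
        intro t
        simp only [y, hA, hB]
        rw [hm.l_smul, hm.r_smul, hconj, smul_mul_smul_comm, hm.l_mul, hm.l_mul, hm.r_mul,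
          hm.r_mul]
        congr 1
        have c1 := hm.comm (x t.1) (e i₀ t.2.1)
        have c2 := hm.comm (e t.2.2 i₀) (e i₀ t.2.1)
        have c3 := hm.comm (e t.2.2 i₀) (x t.1)
        calc l (e i₀ t.2.1) * l (x t.1) * l (e t.2.2 i₀) *
              (r (e i₀ t.2.1) * r (x t.1) * r (e t.2.2 i₀))
            = l (e i₀ t.2.1) * (l (x t.1) * ((l (e t.2.2 i₀) * r (e i₀ t.2.1)) *
              (r (x t.1) * r (e t.2.2 i₀)))) := by simp only [mul_assoc]
          _ = l (e i₀ t.2.1) * ((l (x t.1) * r (e i₀ t.2.1)) * ((l (e t.2.2 i₀) *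
              r (x t.1)) * r (e t.2.2 i₀))) := by rw [c2]; simp only [mul_assoc]
          _ = l (e i₀ t.2.1) * ((r (e i₀ t.2.1) * l (x t.1)) * ((r (x t.1) *
              l (e t.2.2 i₀)) * r (e t.2.2 i₀))) := by rw [c1, c3]
          _ = l (e i₀ t.2.1) * r (e i₀ t.2.1) * (l (x t.1) * r (x t.1)) *
              (l (e t.2.2 i₀) * r (e t.2.2 i₀)) := by simp only [mul_assoc]
      have e2 : TT l r y = ∑ i, ∑ j, ∑ k, (s * s) • (A j * (l (x i) * r (x i)) * B k) := by
        unfold TT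
        rw [Fintype.sum_prod_type]
        refine sum_congr rfl fun i _ => ?_
        rw [Fintype.sum_prod_type]
        exact sum_congr rfl fun j _ => sum_congr rfl fun k _ => e1 (i, j, k)
      have e3 : ∀ X : ι → (S →L[ℂ] S), (∑ j, A j) * (∑ i, X i) * (∑ k, B k) =
          ∑ i, ∑ j, ∑ k, A j * X i * B k := by
        intro X
        have f1 : (∑ j, A j) * (∑ i, X i) = ∑ i, ∑ j, A j * X i := by
          rw [Finset.mul_sum]
          exact sum_congr rfl fun i _ => Finset.sum_mul _ _ _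
        rw [f1, Finset.sum_mul]
        refine sum_congr rfl fun i _ => ?_
        rw [Finset.sum_mul]
        refine sum_congr rfl fun j _ => ?_
        rw [Finset.mul_sum]
      rw [e2, hWs, hW]
      unfold TT
      rw [smul_mul_assoc, smul_mul_smul_comm, e3, Finset.smul_sum]
      refine sum_congr rfl fun i _ => ?_
      rw [Finset.smul_sum]
      refine sum_congr rfl fun j _ => ?_
      rw [Finset.smul_sum]
    rw [hTT]
    calc ‖star Wd * TT l r x * Wd‖ ≤ ‖star Wd‖ * ‖TT l r x‖ * ‖Wd‖ :=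
          (norm_mul_le _ _).trans (mul_le_mul_of_nonneg_right (norm_mul_le _ _) (norm_nonneg _))
      _ ≤ 1 * ‖TT l r x‖ * 1 := by
          rw [norm_star]
          gcongr
      _ = ‖TT l r x‖ := by ring
  · intro t
    simp only [y]
    constructor
    · rw [mul_smul_comm, ← mul_assoc, ← mul_assoc, he.mul, if_pos rfl]
    · rw [smul_mul_assoc, mul_assoc, he.mul, if_pos rfl]

end H68R2.BP
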